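import Pool.Agent.H15.XF.Half

/-! The Euler characteristics. -/

namespace Pool.Agent.H15.XF

variable {r : ℕ} {B : BCl r} {L : Fin r → ℝ} {C : Cur B L} {Frm : ℕ → Prop}

theorem cont1 {n : ℕ} (e : Fin n → B.V) (b c d : (Fin n → ℝ) → B.V)
    (h : ∀ i, Continuous fun F => B.I (e i) (b F) (c F) (d F)) :
    Continuous fun F : Fin n → ℝ => B.I (∑ i, F i • e i) (b F) (c F) (d F) := by
  simp_rw [BCl.I1_sum, BCl.I1_smul]
  exact continuous_finsetSum _ fun i _ => (continuous_apply i).mul (h i)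

theorem cont2 {n : ℕ} (e : Fin n → B.V) (a c d : (Fin n → ℝ) → B.V)
    (h : ∀ i, Continuous fun F => B.I (e i) (a F) (c F) (d F)) :
    Continuous fun F : Fin n → ℝ => B.I (a F) (∑ i, F i • e i) (c F) (d F) := by
  simp_rw [B.symm12 (a _)]
  exact cont1 e a c d h

theorem cont3 {n : ℕ} (e : Fin n → B.V) (a b d : (Fin n → ℝ) → B.V)
    (h : ∀ i, Continuous fun F => B.I (e i) (a F) (b F) (d F)) :
    Continuous fun F : Fin n → ℝ => B.I (a F) (b F) (∑ i, F i • e i) (d F) := by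
  simp_rw [B.symm23 (a _) (b _)]
  exact cont2 e a b d h

theorem cont4 {n : ℕ} (e : Fin n → B.V) (a b c : (Fin n → ℝ) → B.V)
    (h : ∀ i, Continuous fun F => B.I (e i) (a F) (b F) (c F)) :
    Continuous fun F : Fin n → ℝ => B.I (a F) (b F) (c F) (∑ i, F i • e i) := by
  simp_rw [B.symm34 (a _) (b _) (c _)]
  exact cont3 e a b c h

/-- the sum `∑ F_i E_i` -/
def gsum {n : ℕ} (e : Fin n → B.V) (F : Fin n → ℝ) : B.V := ∑ i, F i • e i

theorem cont_GGGG {n : ℕ} (e : Fin n → B.V) :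
    Continuous fun F : Fin n → ℝ => B.I (gsum e F) (gsum e F) (gsum e F) (gsum e F) := by
  unfold gsum
  refine cont1 e _ _ _ fun i => ?_
  refine cont2 e (fun _ => e i) _ _ fun j => ?_
  refine cont3 e (fun _ => e j) (fun _ => e i) _ fun k => ?_
  refine cont4 e (fun _ => e k) (fun _ => e j) (fun _ => e i) fun l => continuous_const

theorem cont_GGG {n : ℕ} (e : Fin n → B.V) (K : B.V) :
    Continuous fun F : Fin n → ℝ => B.I (gsum e F) (gsum e F) (gsum e F) K := by
  unfold gsum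
  refine cont1 e _ _ (fun _ => K) fun i => ?_
  refine cont2 e (fun _ => e i) _ (fun _ => K) fun j => ?_
  refine cont3 e (fun _ => e j) (fun _ => e i) (fun _ => K) fun k => continuous_const

theorem cont_GG {n : ℕ} (e : Fin n → B.V) (K K' : B.V) :
    Continuous fun F : Fin n → ℝ => B.I (gsum e F) (gsum e F) K K' := by
  unfold gsum
  refine cont1 e _ (fun _ => K) (fun _ => K') fun i => ?_
  refine cont2 e (fun _ => e i) (fun _ => K) (fun _ => K') fun j => continuous_const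

theorem cont_G {n : ℕ} (e : Fin n → B.V) (K K' K'' : B.V) :
    Continuous fun F : Fin n → ℝ => B.I (gsum e F) K K' K'' := by
  unfold gsum
  exact cont1 e (fun _ => K) (fun _ => K') (fun _ => K'') fun i => continuous_const

theorem cont_c {n : ℕ} (e : Fin n → B.V) (c2 : B.V → B.V → ℝ)
    (hl : ∀ b, IsLinearMap ℝ fun a => c2 a b) (K : B.V) :
    Continuous fun F : Fin n → ℝ => c2 (gsum e F) K := by
  have h : ∀ F : Fin n → ℝ, c2 (gsum e F) K = ∑ i, F i * c2 (e i) K := by
    intro F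
    have h1 := map_sum (IsLinearMap.mk' _ (hl K)) (fun i => F i • e i) Finset.univ
    refine h1.trans (Finset.sum_congr rfl fun i _ => ?_)
    exact (IsLinearMap.mk' _ (hl K)).map_smul (F i) (e i)
  simp_rw [h]
  exact continuous_finsetSum _ fun i _ => (continuous_apply i).mul continuous_const

theorem cont_cc {n : ℕ} (e : Fin n → B.V) (c2 : B.V → B.V → ℝ)
    (hl : ∀ b, IsLinearMap ℝ fun a => c2 a b) (hs : ∀ a b, c2 a b = c2 b a) :
    Continuous fun F : Fin n → ℝ => c2 (gsum e F) (gsum e F) := by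
  have h : ∀ F : Fin n → ℝ, c2 (gsum e F) (gsum e F) = ∑ i, F i * c2 (gsum e F) (e i) := by
    intro F
    have h1 := map_sum (IsLinearMap.mk' _ (hl (gsum e F))) (fun i => F i • e i) Finset.univ
    refine h1.trans (Finset.sum_congr rfl fun i _ => ?_)
    refine ((IsLinearMap.mk' _ (hl (gsum e F))).map_smul (F i) (e i)).trans ?_
    show F i * c2 (e i) (gsum e F) = _
    rw [hs]
  simp_rw [h]
  exact continuous_finsetSum _ fun i _ => (continuous_apply i).mul (cont_c e c2 hl (e i))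

theorem gsum_zero {n : ℕ} (e : Fin n → B.V) : gsum e 0 = 0 := by
  unfold gsum
  simp

/-- From the last model to the differential forms. -/
theorem Aux.frm_of_last (S : Aux C Frm) (P : B.V) (hP : Good B L P)
    (null : ∀ a b, B.I P P a b = 0) (T : C.C) (hT : ∀ E, C.nu T E = B.o P E) {lam : ℝ}
    (Y : Res C S.a (S.chi 0) Frm T lam)
    (heq : ∀ E, C.nu T E = -∑ j, C.nu T (Y.F j) * B.o (Y.phi j) E) (hrat : RatOut Y.toLast)
    (N : ℕ) :
    ∃ m, N ≤ m ∧ Frm m := by
  classical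
  obtain ⟨c, q, hc, hq⟩ := hrat
  -- the coefficients on the resolution
  obtain ⟨p, hp⟩ : ∃ p : Fin Y.n → ℚ, ∀ i, C.nu T (Y.E i) = c * p i := by
    choose ρ hρ using Y.rat
    refine ⟨fun i => -∑ j, q j * ρ j (Y.E i), fun i => ?_⟩
    rw [heq]
    push_cast
    rw [mul_neg, Finset.mul_sum]
    congr 1
    refine Finset.sum_congr rfl fun j _ => ?_
    rw [hq, hρ]
    ring
  have hp0 : ∀ i, 0 ≤ p i := by
    intro i
    have h1 : 0 ≤ c * (p i : ℝ) := by rw [← hp, hT]; exact hP.2.2 _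
    have h2 : (0 : ℝ) ≤ p i := nonneg_of_mul_nonneg_right h1 hc
    exact_mod_cast h2
  obtain ⟨d, s, hd, hs⟩ : ∃ (d : ℕ) (s : Fin Y.n → ℕ), 0 < d ∧ ∀ i, (p i : ℝ) = s i / d := by
    refine ⟨∏ i, (p i).den, fun i => (p i).num.toNat * ∏ k ∈ Finset.univ.erase i, (p k).den,
      Finset.prod_pos fun i _ => (p i).den_pos, fun i => ?_⟩
    have h1 : (∏ k, (p k).den : ℕ) = (p i).den * ∏ k ∈ Finset.univ.erase i, (p k).den :=
      (Finset.mul_prod_erase _ _ (Finset.mem_univ i)).symm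
    rw [h1]
    have h2 : ((p i).num.toNat : ℤ) = (p i).num := Int.toNat_of_nonneg (Rat.num_nonneg.2 (hp0 i))
    have h3 : ((p i).num.toNat : ℝ) = ((p i).num : ℝ) := by exact_mod_cast h2
    have h4 : (∏ k ∈ Finset.univ.erase i, ((p k).den : ℝ)) ≠ 0 :=
      Finset.prod_ne_zero_iff.2 fun k _ => by exact_mod_cast (p k).den_nz
    have h5 : ((p i).den : ℝ) ≠ 0 := by exact_mod_cast (p i).den_nz
    push_cast
    rw [h3, mul_div_mul_right _ _ h4]
    exact_mod_cast (Rat.num_div_den (p i)).symm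
  set β : ℝ := c / d with hβ
  have hx : ∀ i, C.nu T (Y.E i) = β * s i := by
    intro i
    rw [hp, hs, hβ]
    ring
  -- the class `P` on the resolution
  have hPe : P = B.pb L - ∑ i, C.nu T (Y.E i) • Y.e i := by
    have h1 : P = B.pb L - ∑ j, C.nu T (Y.F j) • Y.phi j := by
      have h2 : P - (B.pb L - ∑ j, C.nu T (Y.F j) • Y.phi j) = 0 := by
        refine B.ext _ ?_ ?_
        · rw [BCl.tr_sub, BCl.tr_sub, B.tr_pb, BCl.tr_sum]
          simp only [BCl.tr_smul, Y.tr_phi, smul_zero, Finset.sum_const_zero, sub_zero]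
          rw [hP.2.1, sub_self]
        · funext E
          rw [BCl.o_sub, BCl.o_sub, BCl.o_pb', BCl.o_sum]
          simp only [BCl.o_smul]
          rw [← hT E, heq E]
          simp
      exact sub_eq_zero.1 h2
    have h3 : ∑ j, C.nu T (Y.F j) • Y.phi j = ∑ i, C.nu T (Y.E i) • Y.e i := by
      have h4 : ∀ j, C.nu T (Y.F j) • Y.phi j =
          ∑ i, (C.nu T (Y.F j) * -B.o (Y.phi j) (Y.E i)) • Y.e i := by
        intro j
        conv_lhs => rw [Y.phi_e j]
        rw [Finset.smul_sum]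
        simp only [smul_smul]
      simp_rw [h4]
      rw [Finset.sum_comm]
      refine Finset.sum_congr rfl fun i _ => ?_
      rw [← Finset.sum_smul]
      congr 1
      rw [heq (Y.E i), ← Finset.sum_neg_distrib]
      exact Finset.sum_congr rfl fun j _ => by ring
    rw [← h3]
    exact h1
  set K : B.V := ∑ i, (S.a (Y.E i) : ℝ) • Y.e i with hK
  set Φ : (Fin Y.n → ℝ) → ℝ := fun F =>
    B.I (gsum Y.e F) (gsum Y.e F) (gsum Y.e F) (gsum Y.e F) +
      2 * B.I (gsum Y.e F) (gsum Y.e F) (gsum Y.e F) K + B.I (gsum Y.e F) (gsum Y.e F) K K +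
      Y.c2 (gsum Y.e F) (gsum Y.e F) + Y.c2 (gsum Y.e F) K + 24 * S.chi 0 with hΦ
  set Ψ : (Fin Y.n → ℝ) → ℝ := fun F =>
    4 * B.I (gsum Y.e F) (gsum Y.e F) (gsum Y.e F) P + 6 * B.I (gsum Y.e F) (gsum Y.e F) P K +
      2 * B.I (gsum Y.e F) P K K + 2 * Y.c2 (gsum Y.e F) P + Y.c2 P K with hΨ
  have hΦc : Continuous Φ := by
    rw [hΦ]
    exact (((((cont_GGGG Y.e).add (continuous_const.mul (cont_GGG Y.e K))).add
      (cont_GG Y.e K K)).add (cont_cc Y.e Y.c2 Y.c2_lin Y.c2_symm)).add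
      (cont_c Y.e Y.c2 Y.c2_lin K)).add continuous_const
  have hΨc : Continuous Ψ := by
    rw [hΨ]
    exact ((((continuous_const.mul (cont_GGG Y.e P)).add
      (continuous_const.mul (cont_GG Y.e P K))).add (continuous_const.mul (cont_G Y.e P K K))).add
      (continuous_const.mul (cont_c Y.e Y.c2 Y.c2_lin P))).add continuous_const
  have hc2z : ∀ a, Y.c2 0 a = 0 := fun a => (IsLinearMap.mk' _ (Y.c2_lin a)).map_zero
  have hc2add : ∀ a b k, Y.c2 (a + b) k = Y.c2 a k + Y.c2 b k := fun a b k =>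
    (IsLinearMap.mk' _ (Y.c2_lin k)).map_add a b
  have hc2smul : ∀ (t : ℝ) a k, Y.c2 (t • a) k = t * Y.c2 a k := fun t a k =>
    (IsLinearMap.mk' _ (Y.c2_lin k)).map_smul t a
  have hΦ0 : Φ 0 ≠ 0 := by
    have h1 : Φ 0 = 24 * S.chi 0 := by
      simp only [hΦ, gsum_zero, BCl.I1_zero, hc2z]
      ring
    rw [h1]
    have : (0 : ℝ) < S.chi 0 := by exact_mod_cast S.chi_zero
    linarith
  -- the Euler characteristic
  have hchi : ∀ m : ℕ, (24 * Y.chi m (fun i => ⌊m * C.nu T (Y.E i)⌋) : ℝ) =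
      m ^ 2 * Y.c2 P P + m * Ψ (fun i => Int.fract (m * (β * s i))) +
        Φ (fun i => Int.fract (m * (β * s i))) := by
    intro m
    set F : Fin Y.n → ℝ := fun i => Int.fract (m * (β * s i)) with hF
    have hM : (m : ℝ) • P + gsum Y.e F = (m : ℝ) • B.pb L -
        ∑ i, ((⌊m * C.nu T (Y.E i)⌋ : ℤ) : ℝ) • Y.e i := by
      have hmP := congrArg (fun v : B.V => (m : ℝ) • v) hPe
      rw [hmP]
      unfold gsum
      rw [smul_sub, Finset.smul_sum, sub_add, ← Finset.sum_sub_distrib]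
      congr 1
      refine Finset.sum_congr rfl fun i _ => ?_
      rw [smul_smul, ← sub_smul]
      congr 1
      simp only [hF, hx i]
      exact Int.self_sub_fract _
    rw [Y.rr m _ _ K hM hK]
    simp only [hΦ, hΨ]
    generalize gsum Y.e F = G
    have e1 : B.I P G G G = B.I G G G P := by
      rw [B.symm12 P G, B.symm23 G P, B.symm34 G G P]
    have e2 : B.I P G G K = B.I G G P K := by rw [B.symm12 P G, B.symm23 G P]
    have e3 : B.I P G K K = B.I G P K K := B.symm12 _ _ _ _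
    have n2 : ∀ a b, B.I P a P b = 0 := fun a b => by rw [B.symm23, null]
    have n3 : ∀ a b, B.I P a b P = 0 := fun a b => by rw [B.symm34, n2]
    have n4 : ∀ a b, B.I a P P b = 0 := fun a b => by rw [B.symm12, n2]
    have n5 : ∀ a b, B.I a P b P = 0 := fun a b => by rw [B.symm34, n4]
    have n6 : ∀ a b, B.I a b P P = 0 := fun a b => by rw [B.symm23, n5]
    simp only [BCl.I1_add, BCl.I1_smul, BCl.I2_add, BCl.I2_smul, BCl.I3_add, BCl.I3_smul,
      BCl.I4_add, BCl.I4_smul, null, n2, n3, n4, n5, n6, hc2add, hc2smul]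
    have g1 : B.I G P G G = B.I G G G P := by rw [B.symm23, B.symm34]
    have g2 : B.I G G P G = B.I G G G P := B.symm34 _ _ _ _
    have g3 : B.I G P G K = B.I G G P K := B.symm23 _ _ _ _
    rw [Y.c2_symm P (_ + _), Y.c2_symm G (_ + _), hc2add, hc2add, hc2smul, hc2smul, e1, e2, e3, g1,
      g2, g3, Y.c2_symm P G]
    ring
  -- a nonzero Euler characteristic
  obtain ⟨m, hm, hne⟩ : ∃ m : ℕ, N + 1 ≤ m ∧
      m ^ 2 * Y.c2 P P + m * Ψ (fun i => Int.fract (m * (β * s i))) +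
        Φ (fun i => Int.fract (m * (β * s i))) ≠ 0 := by
    by_cases hcc : Y.c2 P P = 0
    · obtain ⟨m, hm, h⟩ := Pool.Agent.H87.FB.exists_ne_zero s β Φ Ψ hΦc hΨc hΦ0 (N + 1)
      exact ⟨m, hm, by rw [hcc, mul_zero, zero_add]; exact h⟩
    · -- the quadratic term is larger than the others
      have hcomp : IsCompact (Set.Icc (0 : Fin Y.n → ℝ) 1) := isCompact_Icc
      obtain ⟨a, ha⟩ := (hcomp.image hΦc).isBounded.exists_norm_le
      obtain ⟨b, hb⟩ := (hcomp.image hΨc).isBounded.exists_norm_le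
      have hmem : ∀ m : ℕ, (fun i => Int.fract ((m : ℝ) * (β * s i))) ∈
          Set.Icc (0 : Fin Y.n → ℝ) 1 := fun m =>
        ⟨fun i => Int.fract_nonneg _, fun i => (Int.fract_lt_one _).le⟩
      obtain ⟨m, hm⟩ := exists_nat_gt (max ((a + b) / |Y.c2 P P|) (N + 1))
      have hm1 : (N + 1 : ℝ) < m := lt_of_le_of_lt (le_max_right _ _) hm
      have hm1' : N + 1 < m := by exact_mod_cast hm1
      have hm2 : (a + b) / |Y.c2 P P| < m := lt_of_le_of_lt (le_max_left _ _) hm
      have hpos : 0 < |Y.c2 P P| := abs_pos.2 hcc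
      rw [div_lt_iff₀ hpos] at hm2
      refine ⟨m, hm1'.le, fun h0 => ?_⟩
      have hA := ha _ ⟨_, hmem m, rfl⟩
      have hB := hb _ ⟨_, hmem m, rfl⟩
      rw [Real.norm_eq_abs] at hA hB
      set A' := Φ (fun i => Int.fract ((m : ℝ) * (β * s i)))
      set B' := Ψ (fun i => Int.fract ((m : ℝ) * (β * s i)))
      have hmR : (1 : ℝ) ≤ m := by linarith [(Nat.cast_nonneg N : (0 : ℝ) ≤ N)]
      have h1 : (m : ℝ) ^ 2 * |Y.c2 P P| = |m * B' + A'| := by
        have : (m : ℝ) ^ 2 * Y.c2 P P = -(m * B' + A') := by linarith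
        rw [← abs_neg (m * B' + A'), ← this, abs_mul, abs_of_nonneg (by positivity : (0 : ℝ) ≤ m ^ 2)]
      have h2 : |m * B' + A'| ≤ m * b + a := by
        refine (abs_add_le _ _).trans ?_
        rw [abs_mul, abs_of_nonneg (by linarith : (0 : ℝ) ≤ m)]
        have := mul_le_mul_of_nonneg_left hB (by linarith : (0 : ℝ) ≤ m)
        linarith
      have ha0 : 0 ≤ a := (abs_nonneg _).trans hA
      have h3 : (m : ℝ) * b + a ≤ m * (a + b) := by nlinarith
      have h4 : (m : ℝ) ^ 2 * |Y.c2 P P| ≤ m * (a + b) := by rw [h1]; exact h2.trans h3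
      have h5 : (m : ℝ) * (a + b) < m * (m * |Y.c2 P P|) :=
        mul_lt_mul_of_pos_left hm2 (by linarith)
      nlinarith
  refine ⟨m, by omega, Y.dps heq m (by omega) ?_⟩
  intro h0
  have := hchi m
  rw [h0] at this
  apply hne
  rw [← this]
  simp

end Pool.Agent.H15.XF
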