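import Pool.Agent.H15.XF.Lin
import Pool.Agent.H15.XF.Defs
import Pool.Agent.H87.FB.End
import Pool.Agent.H87.FB.Steps

/-! The second half: from the extremal class to differential forms. -/

namespace Pool.Agent.H15.XF

variable {r : ℕ} {B : BCl r} {L : Fin r → ℝ} {C : Cur B L} {Frm : ℕ → Prop}

/-- The data of `Sys` and the numbers of `X`. -/
structure Aux (C : Cur B L) (Frm : ℕ → Prop) where
  two : Two B L
  rat : ∃ q : ℚ, B.I (B.pb L) (B.pb L) (B.pb B.A) (B.pb B.A) = q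
  rat' : ∀ G, B.X G → ∃ q : ℚ, B.I (B.pb L) (B.pb (B.cl G)) (B.pb B.A) (B.pb B.A) = q
  a : B.D → ℕ
  a_X : ∀ G, B.X G → a G = 0
  lct_pos : ∀ T, ∃ c : ℝ, 0 < c ∧ ∀ E, c * C.nu T E ≤ a E + 1
  lct : ∀ T, (∃ E, 0 < C.nu T E) →
    ∃ c : ℝ, 0 < c ∧ (∀ E, c * C.nu T E ≤ a E + 1) ∧ ∃ E, a E < c * C.nu T E
  fin : ∀ T (lam lam' : ℝ), 0 < lam → lam < lam' → (∀ E, lam' * C.nu T E ≤ a E + 1) →
    {E | ¬ B.X E ∧ 0 < C.nu T E ∧ a E ≤ lam * C.nu T E}.Finite
  chi : ℕ → ℤ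
  chi_zero : 0 < chi 0
  c : ℝ
  rr : ∀ m : ℕ, (24 * chi m : ℝ) = m ^ 2 * c + 24 * chi 0
  dps : ∀ T, (∀ E, C.nu T E = 0) → ∀ m : ℕ, 0 < m → chi m ≠ 0 → Frm m
  prog : ∀ T (lam lam' : ℝ), 0 < lam → lam < lam' → (∀ E, lam' * C.nu T E ≤ a E + 1) →
    {G | B.X G ∧ 0 < C.nu T G}.Finite → (∀ E, 0 < C.nu T E → (a E : ℝ) ≠ lam * C.nu T E) →
    Nonempty Pool.Agent.H87.FB.Steps ∨ Nonempty (Res C a (chi 0) Frm T lam)

/-- the last model -/
theorem Aux.exists_last (S : Aux C Frm) (T : C.C) (S0 : Finset B.D)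
    (lam0 : ℝ) (h0 : 0 < lam0) (hlct : ∀ E, lam0 * C.nu T E ≤ S.a E + 1)
    (hS0 : ∀ E ∈ S0, 0 < C.nu T E ∧ S.a E < lam0 * C.nu T E)
    (hX : {G | B.X G ∧ 0 < C.nu T G}.Finite)
    (hmin : ∀ w, Good B L w → ∀ t : ℝ, 0 ≤ t → t ≤ 1 → (∀ E ∈ S0, t * C.nu T E ≤ B.o w E) →
      ∀ E, t * C.nu T E ≤ B.o w E) :
    ∃ (lam : ℝ) (Y : Res C S.a (S.chi 0) Frm T lam), 0 < lam ∧
      (∀ E ∈ S0, ∃ j, Y.F j = E) ∧
      ∀ E, C.nu T E = -∑ j, C.nu T (Y.F j) * B.o (Y.phi j) E := by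
  classical
  -- a number `lam1 < lam0` which is large enough for the divisors of `S0`
  obtain ⟨lam1, hl1, hl10, hlS⟩ : ∃ lam1 : ℝ, 0 < lam1 ∧ lam1 < lam0 ∧
      ∀ E ∈ S0, (S.a E : ℝ) < lam1 * C.nu T E := by
    have h1 : ∀ᶠ s : ℝ in nhdsWithin lam0 (Set.Iio lam0), ∀ E ∈ S0, (S.a E : ℝ) < s * C.nu T E := by
      rw [Filter.eventually_all_finset]
      intro E hE
      have h2 : Filter.Tendsto (fun s : ℝ => s * C.nu T E) (nhds lam0) (nhds (lam0 * C.nu T E)) :=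
        (continuous_id.mul continuous_const).tendsto _
      exact (h2.mono_left nhdsWithin_le_nhds).eventually (lt_mem_nhds (hS0 E hE).2)
    have h2 : ∀ᶠ s : ℝ in nhdsWithin lam0 (Set.Iio lam0), 0 < s :=
      nhdsWithin_le_nhds (lt_mem_nhds h0)
    have h3 : ∀ᶠ s : ℝ in nhdsWithin lam0 (Set.Iio lam0), s < lam0 := self_mem_nhdsWithin
    obtain ⟨s, hs⟩ := (h1.and (h2.and h3)).exists
    exact ⟨s, hs.2.1, hs.2.2, hs.1⟩
  have hfin := S.fin T lam1 lam0 hl1 hl10 hlct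
  -- a general `lam` between the discrepancies and `lam1`
  obtain ⟨lam, hl, hll, hlS', hgen⟩ : ∃ lam : ℝ, 0 < lam ∧ lam < lam1 ∧
      (∀ E ∈ S0, (S.a E : ℝ) < lam * C.nu T E) ∧
      ∀ E, 0 < C.nu T E → (S.a E : ℝ) ≠ lam * C.nu T E := by
    have h1 : ∀ᶠ s : ℝ in nhdsWithin lam1 (Set.Iio lam1), ∀ E ∈ S0, (S.a E : ℝ) < s * C.nu T E := by
      rw [Filter.eventually_all_finset]
      intro E hE
      have h2 : Filter.Tendsto (fun s : ℝ => s * C.nu T E) (nhds lam1) (nhds (lam1 * C.nu T E)) :=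
        (continuous_id.mul continuous_const).tendsto _
      exact (h2.mono_left nhdsWithin_le_nhds).eventually (lt_mem_nhds (hlS E hE))
    have h2 : ∀ᶠ s : ℝ in nhdsWithin lam1 (Set.Iio lam1), 0 < s :=
      nhdsWithin_le_nhds (lt_mem_nhds hl1)
    have h3 : ∀ᶠ s : ℝ in nhdsWithin lam1 (Set.Iio lam1), s < lam1 := self_mem_nhdsWithin
    have h4 : ∀ᶠ s : ℝ in nhdsWithin lam1 (Set.Iio lam1),
        ∀ E ∈ hfin.toFinset, s ≠ S.a E / C.nu T E := by
      rw [Filter.eventually_all_finset]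
      intro E hE
      by_cases hc : (S.a E / C.nu T E : ℝ) < lam1
      · have h5 : ∀ᶠ s : ℝ in nhdsWithin lam1 (Set.Iio lam1), (S.a E / C.nu T E : ℝ) < s :=
          nhdsWithin_le_nhds (lt_mem_nhds hc)
        filter_upwards [h5] with s hs
        exact hs.ne'
      · filter_upwards [h3] with s hs
        rw [not_lt] at hc
        exact (lt_of_lt_of_le hs hc).ne
    obtain ⟨s, hs1, hs2, hs3, hs4⟩ := (h1.and (h2.and (h3.and h4))).exists
    refine ⟨s, hs2, hs3, hs1, fun E hE heq => ?_⟩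
    by_cases hEX : B.X E
    · rw [S.a_X E hEX] at heq
      have : 0 < s * C.nu T E := mul_pos hs2 hE
      rw [← heq] at this
      simp at this
    · have hmem : E ∈ hfin.toFinset := by
        rw [Set.Finite.mem_toFinset]
        exact ⟨hEX, hE, by rw [heq]; exact mul_le_mul_of_nonneg_right hs3.le hE.le⟩
      exact hs4 E hmem (by rw [heq, mul_div_assoc, div_self hE.ne', mul_one])
  rcases S.prog T lam lam0 hl (hll.trans hl10) hlct hX hgen with ⟨⟨St⟩⟩ | ⟨⟨Y⟩⟩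
  · exact absurd St.false id
  · have hmem : ∀ E ∈ S0, ∃ j, Y.F j = E := fun E hE => Y.mem E (hS0 E hE).1 (hlS' E hE)
    refine ⟨lam, Y, hl, hmem, ?_⟩
    obtain ⟨t0, ht0, hnef⟩ := Y.nef
    -- make `t0` smaller than one
    obtain ⟨t, ht, ht1, hnef⟩ : ∃ t : ℝ, 0 < t ∧ t ≤ 1 ∧
        B.Nef (B.pb L - t • ∑ j, C.nu T (Y.F j) • Y.phi j) := by
      refine ⟨min t0 1, lt_min ht0 one_pos, min_le_right _ _, ?_⟩
      have h1 : B.pb L - (min t0 1) • ∑ j, C.nu T (Y.F j) • Y.phi j =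
          (1 - min t0 1 / t0) • B.pb L +
            (min t0 1 / t0) • (B.pb L - t0 • ∑ j, C.nu T (Y.F j) • Y.phi j) := by
        rw [smul_sub, smul_smul, div_mul_cancel₀ _ ht0.ne']
        module
      rw [h1]
      have h2 : min t0 1 / t0 ≤ 1 := (div_le_one ht0).2 (min_le_left _ _)
      refine B.nef_add _ _ (B.nef_smul _ _ (by linarith) S.two.nef) (B.nef_smul _ _ ?_ hnef)
      exact div_nonneg (lt_min ht0 one_pos).le ht0.le
    set w := B.pb L - t • ∑ j, C.nu T (Y.F j) • Y.phi j with hw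
    have how : ∀ E, B.o w E = t * (-∑ j, C.nu T (Y.F j) * B.o (Y.phi j) E) := by
      intro E
      rw [hw, BCl.o_sub, BCl.o_pb', BCl.o_smul, BCl.o_sum, zero_sub, mul_neg]
      simp only [BCl.o_smul]
    have hat : ∀ j, -∑ i, C.nu T (Y.F i) * B.o (Y.phi i) (Y.F j) = C.nu T (Y.F j) := by
      intro j
      rw [Finset.sum_eq_single j]
      · rw [Y.o_phi]; ring
      · intro i _ hi
        rw [Y.o_phi' j i hi.symm, mul_zero]
      · intro h
        exact absurd (Finset.mem_univ j) h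
    have hgood : Good B L w := by
      refine ⟨hnef, ?_, B.neg w hnef ?_⟩
      · rw [hw, BCl.tr_sub, B.tr_pb, BCl.tr_smul, BCl.tr_sum]
        simp only [BCl.tr_smul, Y.tr_phi, smul_zero, Finset.sum_const_zero, sub_zero]
      · intro G hG
        rw [how]
        by_cases hGF : ∃ j, Y.F j = G
        · obtain ⟨j, rfl⟩ := hGF
          rw [hat]
          exact mul_nonneg ht.le (Y.pos j).le
        · push Not at hGF
          simp only [fun j => Y.o_X j G hG hGF, mul_zero, Finset.sum_const_zero, neg_zero, le_refl]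
    have hle := hmin w hgood t ht.le ht1 (fun E hE => by
      obtain ⟨j, rfl⟩ := hmem E hE
      rw [how, hat])
    intro E
    refine le_antisymm ?_ (Y.le E)
    have := hle E
    rw [how] at this
    exact le_of_mul_le_mul_left this ht

end Pool.Agent.H15.XF
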