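import Pool.Agent.H15.XF.Spec

/-! Linear algebra of b-classes. -/

namespace Pool.Agent.H15.XF

variable {r : ℕ} {B : BCl r}

namespace BCl

theorem o_sub (a b : B.V) (E : B.D) : B.o (a - b) E = B.o a E - B.o b E := by
  have := (IsLinearMap.mk' _ B.o_lin).map_sub a b
  exact congrFun this E

theorem o_add (a b : B.V) (E : B.D) : B.o (a + b) E = B.o a E + B.o b E := by
  have := (IsLinearMap.mk' _ B.o_lin).map_add a b
  exact congrFun this E

theorem o_smul (t : ℝ) (a : B.V) (E : B.D) : B.o (t • a) E = t * B.o a E := by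
  have := (IsLinearMap.mk' _ B.o_lin).map_smul t a
  exact congrFun this E

theorem o_sum {ι : Type} (s : Finset ι) (f : ι → B.V) (E : B.D) :
    B.o (∑ i ∈ s, f i) E = ∑ i ∈ s, B.o (f i) E := by
  have h : B.o (∑ i ∈ s, f i) E = (∑ i ∈ s, B.o (f i)) E :=
    congrFun (map_sum (IsLinearMap.mk' _ B.o_lin) f s) E
  rw [h, Finset.sum_apply]

theorem o_pb' (x : Fin r → ℝ) (E : B.D) : B.o (B.pb x) E = 0 := by
  rw [B.o_pb]; rfl

theorem tr_sub (a b : B.V) : B.tr (a - b) = B.tr a - B.tr b :=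
  (IsLinearMap.mk' _ B.tr_lin).map_sub a b

theorem tr_add (a b : B.V) : B.tr (a + b) = B.tr a + B.tr b :=
  (IsLinearMap.mk' _ B.tr_lin).map_add a b

theorem tr_smul (t : ℝ) (a : B.V) : B.tr (t • a) = t • B.tr a :=
  (IsLinearMap.mk' _ B.tr_lin).map_smul t a

theorem tr_sum {ι : Type} (s : Finset ι) (f : ι → B.V) :
    B.tr (∑ i ∈ s, f i) = ∑ i ∈ s, B.tr (f i) :=
  map_sum (IsLinearMap.mk' _ B.tr_lin) f s

theorem pb_add (a b : Fin r → ℝ) : B.pb (a + b) = B.pb a + B.pb b :=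
  (IsLinearMap.mk' _ B.pb_lin).map_add a b

theorem pb_sub (a b : Fin r → ℝ) : B.pb (a - b) = B.pb a - B.pb b :=
  (IsLinearMap.mk' _ B.pb_lin).map_sub a b

theorem pb_smul (t : ℝ) (a : Fin r → ℝ) : B.pb (t • a) = t • B.pb a :=
  (IsLinearMap.mk' _ B.pb_lin).map_smul t a

theorem pb_zero : B.pb 0 = 0 := (IsLinearMap.mk' _ B.pb_lin).map_zero

theorem I1_add (a a' b c d : B.V) : B.I (a + a') b c d = B.I a b c d + B.I a' b c d :=
  (IsLinearMap.mk' _ (B.I_lin b c d)).map_add a a'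

theorem I1_sub (a a' b c d : B.V) : B.I (a - a') b c d = B.I a b c d - B.I a' b c d :=
  (IsLinearMap.mk' _ (B.I_lin b c d)).map_sub a a'

theorem I1_smul (t : ℝ) (a b c d : B.V) : B.I (t • a) b c d = t * B.I a b c d :=
  (IsLinearMap.mk' _ (B.I_lin b c d)).map_smul t a

theorem I1_zero (b c d : B.V) : B.I 0 b c d = 0 :=
  (IsLinearMap.mk' _ (B.I_lin b c d)).map_zero

theorem I1_sum {ι : Type} (s : Finset ι) (f : ι → B.V) (b c d : B.V) :
    B.I (∑ i ∈ s, f i) b c d = ∑ i ∈ s, B.I (f i) b c d :=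
  map_sum (IsLinearMap.mk' _ (B.I_lin b c d)) f s

theorem I2_add (a b b' c d : B.V) : B.I a (b + b') c d = B.I a b c d + B.I a b' c d := by
  rw [B.symm12, I1_add, B.symm12 b, B.symm12 b']

theorem I2_sub (a b b' c d : B.V) : B.I a (b - b') c d = B.I a b c d - B.I a b' c d := by
  rw [B.symm12, I1_sub, B.symm12 b, B.symm12 b']

theorem I2_smul (t : ℝ) (a b c d : B.V) : B.I a (t • b) c d = t * B.I a b c d := by
  rw [B.symm12, I1_smul, B.symm12 b]

theorem I3_add (a b c c' d : B.V) : B.I a b (c + c') d = B.I a b c d + B.I a b c' d := by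
  rw [B.symm23, I2_add, B.symm23 a c, B.symm23 a c']

theorem I3_sub (a b c c' d : B.V) : B.I a b (c - c') d = B.I a b c d - B.I a b c' d := by
  rw [B.symm23, I2_sub, B.symm23 a c, B.symm23 a c']

theorem I3_smul (t : ℝ) (a b c d : B.V) : B.I a b (t • c) d = t * B.I a b c d := by
  rw [B.symm23, I2_smul, B.symm23 a c]

theorem I4_add (a b c d d' : B.V) : B.I a b c (d + d') = B.I a b c d + B.I a b c d' := by
  rw [B.symm34, I3_add, B.symm34 a b d, B.symm34 a b d']

theorem I4_sub (a b c d d' : B.V) : B.I a b c (d - d') = B.I a b c d - B.I a b c d' := by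
  rw [B.symm34, I3_sub, B.symm34 a b d, B.symm34 a b d']

theorem I4_smul (t : ℝ) (a b c d : B.V) : B.I a b c (t • d) = t * B.I a b c d := by
  rw [B.symm34, I3_smul, B.symm34 a b d]

theorem I4_zero (a b c : B.V) : B.I a b c 0 = 0 := by
  have := I4_smul (B := B) 0 a b c 0
  simpa using this

end BCl

end Pool.Agent.H15.XF
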