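import Pool.Agent.H15.XF.Chi

/-! The main part: forms with values in infinitely many multiples of `L`. -/

namespace Pool.Agent.H15.XF

variable {r : ℕ} {B : BCl r} {L : Fin r → ℝ} {C : Cur B L} {Frm : ℕ → Prop}

theorem BCl.I_neg1 (a b c d : B.V) : B.I (-a) b c d = -B.I a b c d := by
  have := BCl.I1_smul (B := B) (-1) a b c d
  simpa using this

/-- monotonicity -/
theorem mono_I (hL : B.Nef (B.pb L)) {u : B.V} (hu : B.tr u = 0) (ho : ∀ E, 0 ≤ B.o u E) :
    B.I (B.pb L) u (B.pb B.A) (B.pb B.A) ≤ 0 := by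
  have h1 := B.eff (-u) (by
      have := BCl.tr_smul (B := B) (-1) u
      rw [neg_one_smul, hu, smul_zero] at this
      exact this) (fun E => by
      have := BCl.o_smul (B := B) (-1) u E
      rw [neg_one_smul] at this
      rw [this]
      linarith [ho E]) (B.pb L) (B.pb B.A) (B.pb B.A) hL B.nef_A B.nef_A
  rw [BCl.I_neg1, B.symm12] at h1
  linarith

/-- an exceptional b-divisor -/
theorem I_exc {u : B.V} (hu : B.tr u = 0) (ho : ∀ G, B.X G → B.o u G = 0) (x y z : Fin r → ℝ) :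
    B.I u (B.pb x) (B.pb y) (B.pb z) = 0 := by
  have h1 := B.sum u
  have h2 : (fun G : {G // B.X G} => B.o u G • B.cl G) = fun _ => 0 := by
    funext G
    rw [ho G.1 G.2, zero_smul]
  rw [h2, hu] at h1
  have h3 : (0 : Fin r → ℝ) - B.cx u = 0 := h1.unique hasSum_zero
  have h4 : B.cx u = 0 := by
    rw [zero_sub, neg_eq_zero] at h3
    exact h3
  rw [B.proj, h4, BCl.pb_zero, BCl.I1_zero]

/-- a current with the Lelong numbers of the extremal class -/
theorem exists_cur {P : B.V} (hP : Good B L P)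
    (hex : ∀ w, Good B L w → (∀ E, B.o P E ≤ B.o w E) → ∀ E, B.o w E = B.o P E) :
    ∃ T : C.C, ∀ E, C.nu T E = B.o P E := by
  obtain ⟨T, hT⟩ := C.cur P hP
  obtain ⟨w, hw, h1⟩ := C.nef T
  refine ⟨T, fun E => ?_⟩
  rw [← h1]
  exact hex w hw (fun F => by rw [h1]; exact hT F) E

theorem good_pb (h : Two B L) : Good B L (B.pb L) :=
  ⟨h.nef, B.tr_pb L, fun E => by rw [BCl.o_pb']⟩

/-- Case D: some `L.v.A.A` is smaller than `L.L.A.A`. -/
theorem Aux.frm_D (S : Aux C Frm) (hM : LemmaM B L) (hE : ExtCore B L)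
    (hL : ∀ (x : B.D → ℝ) (lam : ℝ) (Y : Last B L S.a x lam), 0 < lam → LocalStatement Y)
    (hR : ∀ (x : B.D → ℝ) (lam : ℝ) (Y : Last B L S.a x lam), RatD Y) (hS : StartD B L)
    (hD : ∃ v, Good B L v ∧ B.I (B.pb L) v (B.pb B.A) (B.pb B.A) <
      B.I (B.pb L) (B.pb L) (B.pb B.A) (B.pb B.A)) (N : ℕ) : ∃ m, N ≤ m ∧ Frm m := by
  classical
  obtain ⟨P, hP, hmin, hPfin, hind⟩ := hS S.two hD
  obtain ⟨v, hv, hv'⟩ := hD
  have hlt : B.I (B.pb L) P (B.pb B.A) (B.pb B.A) < B.I (B.pb L) (B.pb L) (B.pb B.A) (B.pb B.A) :=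
    lt_of_le_of_lt (hmin v hv) hv'
  have hfin : {G | B.X G ∧ 0 < B.o P G}.Finite :=
    hPfin.subset fun G hG => ⟨hG.1, hG.2.ne'⟩
  set S0 : Finset B.D := hfin.toFinset with hS0
  have hmem : ∀ G, G ∈ S0 ↔ B.X G ∧ 0 < B.o P G := fun G => by
    rw [hS0, Set.Finite.mem_toFinset]; rfl
  have hoff : ∀ G, B.X G → G ∉ S0 → B.o P G = 0 := fun G hG h => by
    rw [hmem] at h
    push Not at h
    exact le_antisymm (h hG) (hP.2.2 G)
  set th : B.V → ℝ := fun w => B.I (B.pb L) (B.pb L) (B.pb B.A) (B.pb B.A) -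
    B.I (B.pb L) w (B.pb B.A) (B.pb B.A) with hth
  obtain ⟨null, hm, hex⟩ := hE S.two P S0 th hP (by simp only [hth]; linarith)
    (fun w hw => by simp only [hth]; linarith [hmin w hw])
    (fun v w c hv hw hc h => by
      simp only [hth]
      have h1 := mono_I (B := B) S.two.nef (u := (w - B.pb L) - c • (v - B.pb L)) (by
        rw [BCl.tr_sub, BCl.tr_smul, BCl.tr_sub, BCl.tr_sub, hv.2.1, hw.2.1, B.tr_pb]
        simp) (fun E => by
        rw [BCl.o_sub, BCl.o_smul, BCl.o_sub, BCl.o_sub, BCl.o_pb']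
        linarith [h E])
      rw [BCl.I2_sub, BCl.I2_smul, BCl.I2_sub, BCl.I2_sub] at h1
      linarith)
    (fun v t hv ht ht1 hle heq => by
      have h1 : B.I (v - ((1 - t) • B.pb L + t • P)) (B.pb L) (B.pb B.A) (B.pb B.A) = 0 := by
        refine I_exc ?_ ?_ L B.A B.A
        · rw [BCl.tr_sub, BCl.tr_add, BCl.tr_smul, BCl.tr_smul, B.tr_pb, hv.2.1, hP.2.1]
          module
        · intro G hG
          rw [BCl.o_sub, BCl.o_add, BCl.o_smul, BCl.o_smul, BCl.o_pb', mul_zero, zero_add]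
          by_cases hGS : G ∈ S0
          · rw [heq G hGS, sub_self]
          · have h2 := hoff G hG hGS
            have h3 := hle G
            rw [h2, mul_zero] at h3 ⊢
            rw [le_antisymm h3 (hv.2.2 G), sub_self]
      rw [B.symm12, BCl.I2_sub, BCl.I2_add, BCl.I2_smul, BCl.I2_smul] at h1
      have h2 : B.I (B.pb L) v (B.pb B.A) (B.pb B.A) =
          (1 - t) * B.I (B.pb L) (B.pb L) (B.pb B.A) (B.pb B.A) +
            t * B.I (B.pb L) P (B.pb B.A) (B.pb B.A) := by linarith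
      refine ⟨?_, h2⟩
      simp only [hth]
      rw [h2]
      ring)
    (fun w hw h => by
      refine le_antisymm ?_ (hmin w hw)
      have h1 := mono_I (B := B) S.two.nef (u := w - P) (by
        rw [BCl.tr_sub, hP.2.1, hw.2.1, sub_self]) (fun E => by
        rw [BCl.o_sub]
        linarith [h E])
      rw [BCl.I2_sub] at h1
      linarith)
  obtain ⟨T, hT⟩ := exists_cur (C := C) hP hex
  obtain ⟨lam0, hl0, hlct⟩ := S.lct_pos T
  have hXfin : {G | B.X G ∧ 0 < C.nu T G}.Finite := by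
    refine hfin.subset fun G hG => ⟨hG.1, ?_⟩
    rw [← hT]
    exact hG.2
  obtain ⟨lam, Y, hlam, hj, heq⟩ := S.exists_last T S0 lam0 hl0 hlct (fun E hE => by
      have h1 := (hmem E).1 hE
      rw [hT, S.a_X E h1.1]
      exact ⟨h1.2, by simpa using mul_pos hl0 h1.2⟩) hXfin
    (fun w hw t ht ht1 h E => by
      rw [hT]
      exact hm w hw t ht ht1 (fun F hF => by rw [← hT]; exact h F hF) E)
  refine S.frm_of_last P hP null T hT Y heq ?_ N
  refine hR _ _ Y.toLast S.two hM (hL _ _ Y.toLast hlam) P hP (funext fun E => (hT E).symm) null heq hmin hlt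
    S.rat S.rat' ?_
  intro h hX hsum
  -- extend `h` to all divisors
  set g : B.D → ℝ := fun G => ∑ j, if Y.F j = G then h j else 0 with hg
  have hgF : ∀ j, g (Y.F j) = h j := by
    intro j
    simp only [hg]
    rw [Finset.sum_eq_single j]
    · simp
    · intro i _ hi
      rw [if_neg]
      exact fun he => hi (Y.inj he)
    · intro hj
      exact absurd (Finset.mem_univ j) hj
  have hg0 : ∀ G, g G ≠ 0 → ∃ j, Y.F j = G ∧ h j ≠ 0 := by
    intro G hG
    obtain ⟨j, _, hj⟩ := Finset.exists_ne_zero_of_sum_ne_zero hG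
    by_cases hjG : Y.F j = G
    · rw [if_pos hjG] at hj
      exact ⟨j, hjG, hj⟩
    · rw [if_neg hjG] at hj
      exact absurd rfl hj
  have hfing : (Function.support g).Finite := by
    refine (Set.finite_range Y.F).subset fun G hG => ?_
    obtain ⟨j, hj, _⟩ := hg0 G hG
    exact ⟨j, hj⟩
  have key := hind (Finsupp.ofSupportFinite g hfing) (fun G hG => by
      obtain ⟨j, rfl, hj⟩ := hg0 G hG
      refine ⟨by_contra fun hn => hj (hX j hn), ?_⟩
      rw [← hT]
      exact (Y.pos j).ne') (by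
      have hsub : (Finsupp.ofSupportFinite g hfing).support ⊆ Finset.univ.image Y.F := by
        intro G hG
        obtain ⟨j, rfl, _⟩ := hg0 G (Finsupp.mem_support_iff.1 hG)
        exact Finset.mem_image_of_mem _ (Finset.mem_univ j)
      have e := Finsupp.sum_of_support_subset (Finsupp.ofSupportFinite g hfing)
        (s := Finset.univ.image Y.F) hsub (fun G t => t • B.cl G) (fun G _ => zero_smul _ _)
      refine e.trans ?_
      rw [Finset.sum_image fun i _ j _ he => Y.inj he]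
      show ∑ j, g (Y.F j) • B.cl (Y.F j) = 0
      simp only [hgF]
      exact hsum)
  intro j
  rw [← hgF]
  exact DFunLike.congr_fun key (Y.F j)

/-- Case E: `L.v.A.A = L.L.A.A` for all good `v`. -/
theorem Aux.frm_E (S : Aux C Frm) (hE : ExtCore B L)
    (hL : ∀ (x : B.D → ℝ) (lam : ℝ) (Y : Last B L S.a x lam), 0 < lam → LocalStatement Y)
    (hR : ∀ (x : B.D → ℝ) (lam : ℝ) (Y : Last B L S.a x lam), RatE Y) (hS : StartE B L)
    (hD : ∀ v, Good B L v → B.I (B.pb L) v (B.pb B.A) (B.pb B.A) =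
      B.I (B.pb L) (B.pb L) (B.pb B.A) (B.pb B.A)) (T0 : C.C) (_hT0 : ∀ E, 0 ≤ C.nu T0 E)
    (hne : ∃ E, 0 < C.nu T0 E) (N : ℕ) : ∃ m, N ≤ m ∧ Frm m := by
  classical
  have hfin := hS S.two hD
  have hgood := good_pb S.two
  -- the b-class of `T0`
  obtain ⟨v0, hv0, hv0'⟩ := C.nef T0
  obtain ⟨c0, hc0, hc0', E0, hE0⟩ := S.lct T0 hne
  have hpos0 : 0 < C.nu T0 E0 := by
    have h1 : 0 < c0 * C.nu T0 E0 := lt_of_le_of_lt (Nat.cast_nonneg _) hE0
    exact (mul_pos_iff_of_pos_left hc0).1 h1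
  -- the class with the largest coefficient at `E0`
  set SE : Finset B.D := insert E0 hfin.toFinset with hSE
  have hall : ∀ w, Good B L w → ∀ G, B.X G → G ∉ SE → B.o w G = 0 := by
    intro w hw G hG hGS
    by_contra hn
    apply hGS
    rw [hSE, Finset.mem_insert, Set.Finite.mem_toFinset]
    exact Or.inr ⟨hG, w, hw, lt_of_le_of_ne (hw.2.2 G) (Ne.symm hn)⟩
  obtain ⟨P, hP1, hP2, hP3, -, hmax⟩ := B.most L S.two.nef (fun G => B.X G ∧ G ∉ SE) SE
    (fun E => if E = E0 then 1 else 0)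
  have hP : Good B L P := ⟨hP1, hP2, hP3⟩
  have hmax' : ∀ w, Good B L w → B.o w E0 ≤ B.o P E0 := by
    intro w hw
    have h1 := hmax w hw.1 hw.2.1 hw.2.2 (fun E hE => hall w hw E hE.1 hE.2)
    have hmem : E0 ∈ SE := Finset.mem_insert_self _ _
    simp only [ite_mul, one_mul, zero_mul, Finset.sum_ite_eq', hmem, if_true] at h1
    exact h1
  have hPpos : 0 < B.o P E0 := by
    have := hmax' v0 hv0
    rw [hv0'] at this
    exact hpos0.trans_le this
  obtain ⟨null, hm, hex⟩ := hE S.two P {E0} (fun w => B.o w E0) hP hPpos hmax'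
    (fun v w c hv hw hc h => h E0)
    (fun v t hv ht ht1 hle heq => ⟨heq E0 (Finset.mem_singleton_self _), by
      rw [hD v hv, hD P hP]
      ring⟩)
    (fun w hw h => by rw [hD w hw, hD P hP])
  obtain ⟨T, hT⟩ := exists_cur (C := C) hP hex
  have hXfin : {G | B.X G ∧ 0 < C.nu T G}.Finite := by
    refine hfin.subset fun G hG => ⟨hG.1, P, hP, ?_⟩
    rw [← hT]
    exact hG.2
  set t : ℝ := C.nu T0 E0 / B.o P E0 with ht
  have ht0 : 0 < t := div_pos hpos0 hPpos
  have ht1 : t ≤ 1 := by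
    rw [ht, div_le_one hPpos, ← hv0']
    exact hmax' v0 hv0
  have htP : t * B.o P E0 = C.nu T0 E0 := div_mul_cancel₀ _ hPpos.ne'
  have hcomp : ∀ E, t * B.o P E ≤ C.nu T0 E := by
    intro E
    rw [← hv0']
    refine hm v0 hv0 t ht0.le ht1 (fun F hF => ?_) E
    rw [Finset.mem_singleton] at hF
    subst hF
    rw [htP, hv0']
  obtain ⟨lam, Y, hlam, hj, heq⟩ := S.exists_last T {E0} (c0 * t) (mul_pos hc0 ht0) (fun E => by
      rw [hT, mul_assoc]
      exact (mul_le_mul_of_nonneg_left (hcomp E) hc0.le).trans (hc0' E)) (fun E hE => by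
      rw [Finset.mem_singleton] at hE
      subst hE
      rw [hT, mul_assoc, htP]
      exact ⟨hPpos, hE0⟩) hXfin
    (fun w hw s hs hs1 h E => by
      rw [hT]
      exact hm w hw s hs hs1 (fun F hF => by rw [← hT]; exact h F hF) E)
  obtain ⟨j0, hj0⟩ := hj E0 (Finset.mem_singleton_self _)
  refine S.frm_of_last P hP null T hT Y heq ?_ N
  refine hR _ _ Y.toLast S.two (hL _ _ Y.toLast hlam) P hP (funext fun E => (hT E).symm) heq j0 ?_
  intro w hw s hs hs1 h E
  rw [hT]
  refine hm w hw s hs hs1 (fun F hF => ?_) E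
  rw [Finset.mem_singleton] at hF
  subst hF
  rw [← hj0, ← hT]
  exact h

/-- **Theorem.** There are differential forms with values in infinitely many multiples of `L`. -/
theorem Aux.frm (S : Aux C Frm) (hM : LemmaM B L) (hE : ExtCore B L)
    (hL : ∀ (x : B.D → ℝ) (lam : ℝ) (Y : Last B L S.a x lam), 0 < lam → LocalStatement Y)
    (hRE : ∀ (x : B.D → ℝ) (lam : ℝ) (Y : Last B L S.a x lam), RatE Y)
    (hRD : ∀ (x : B.D → ℝ) (lam : ℝ) (Y : Last B L S.a x lam), RatD Y)
    (hSE : StartE B L) (hSD : StartD B L) (N : ℕ) : ∃ m, N ≤ m ∧ Frm m := by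
  by_cases hD : ∃ v, Good B L v ∧ B.I (B.pb L) v (B.pb B.A) (B.pb B.A) <
      B.I (B.pb L) (B.pb L) (B.pb B.A) (B.pb B.A)
  · exact S.frm_D hM hE hL hRD hSD hD N
  push Not at hD
  have hD' : ∀ v, Good B L v → B.I (B.pb L) v (B.pb B.A) (B.pb B.A) =
      B.I (B.pb L) (B.pb L) (B.pb B.A) (B.pb B.A) := by
    intro v hv
    refine le_antisymm ?_ (hD v hv)
    have h1 := mono_I (B := B) S.two.nef (u := v - B.pb L) (by
      rw [BCl.tr_sub, hv.2.1, B.tr_pb, sub_self]) (fun E => by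
      rw [BCl.o_sub, BCl.o_pb', sub_zero]
      exact hv.2.2 E)
    rw [BCl.I2_sub] at h1
    linarith
  obtain ⟨T0, hT0⟩ := C.cur (B.pb L) (good_pb S.two)
  have hT0' : ∀ E, 0 ≤ C.nu T0 E := fun E => by
    have := hT0 E
    rwa [BCl.o_pb'] at this
  by_cases hne : ∃ E, 0 < C.nu T0 E
  · exact S.frm_E hE hL hRE hSE hD' T0 hT0' hne N
  · push Not at hne
    have hz : ∀ E, C.nu T0 E = 0 := fun E => le_antisymm (hne E) (hT0' E)
    have h1 : ∃ m : ℕ, N + 1 ≤ m ∧ S.chi m ≠ 0 := by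
      by_contra hcon
      push Not at hcon
      have h2 := S.rr (N + 1)
      have h3 := S.rr (N + 2)
      rw [hcon (N + 1) le_rfl] at h2
      rw [hcon (N + 2) (by omega)] at h3
      have h4 : (0 : ℝ) < S.chi 0 := by exact_mod_cast S.chi_zero
      push_cast at h2 h3
      have h5 : S.c * (2 * N + 3) = 0 := by nlinarith
      have h6 : S.c = 0 := by
        rcases mul_eq_zero.1 h5 with h | h
        · exact h
        · have : (0 : ℝ) ≤ N := Nat.cast_nonneg N
          linarith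
      rw [h6] at h2
      linarith
    obtain ⟨m, hm, hne⟩ := h1
    exact ⟨m, by omega, S.dps T0 hz m (by omega) hne⟩

end Pool.Agent.H15.XF
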