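import Pool.Agent.H15.XF.Defs

/-!
# The last model, with names for the divisors `F_j`
-/

namespace Pool.Agent.H15.XF

variable {r : ℕ}

/-- Let `x ≥ 0` be the b-divisor of the Lelong numbers of a current `T` in the class of `L`, with finitely
many components on `X`, and let `lam` be smaller than the log canonical threshold of `T`. `Y → X` is `ℚ`-factorial, its exceptional
divisors are those `E` with `a_E ≤ lam x_E`, where `a_E` are the discrepancies (Birkar, Cascini, Hacon and
McKernan 2010). Let `F_j` be the prime divisors of `Y` with `x_j > 0`. The program for `L - t ∑ x_j F_j`,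
`t > 0` small, consists of small, `L`-trivial steps (the length of an extremal ray is at most `8`) and
stops at the model `Y'`. `Y'` is `ℚ`-factorial and terminal, `L` is a Cartier divisor on `Y'`, and
`K = ∑ a_j F_j`. -/
structure Last (B : BCl r) (L : Fin r → ℝ) (a : B.D → ℕ) (x : B.D → ℝ) (lam : ℝ) where
  J : Type
  [fin : Fintype J]
  F : J → B.D
  inj : Function.Injective F
  mem : ∀ E, 0 < x E → a E < lam * x E → ∃ j, F j = E
  pos : ∀ j, 0 < x (F j)
  /-- the pull back of the divisor `F_j` of `Y'` to the models -/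
  phi : J → B.V
  tr_phi : ∀ j, B.tr (phi j) = 0
  o_phi : ∀ j, B.o (phi j) (F j) = -1
  o_phi' : ∀ i j, i ≠ j → B.o (phi j) (F i) = 0
  o_X : ∀ j G, B.X G → (∀ i, F i ≠ G) → B.o (phi j) G = 0
  /-- a multiple of `F_j` is a Cartier divisor -/
  rat : ∀ j E, ∃ q : ℚ, B.o (phi j) E = q
  ratI : ∀ i j, ∃ q : ℚ, B.I (phi i) (phi j) (B.pb B.A) (B.pb B.A) = q
  nef : ∃ t : ℝ, 0 < t ∧ B.Nef (B.pb L - t • ∑ j, x (F j) • phi j)
  /-- negativity lemma: `L - t x` is a nef b-class, so it is at most the pull back of its class on `Y'` -/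
  le : ∀ E, -∑ j, x (F j) * B.o (phi j) E ≤ x E
  /-- rational curves which generate extremal rays of `Y'` -/
  Cv : Type
  /-- the intersection numbers with `L` and with `N F_j`, a Cartier divisor -/
  l : Cv → ℕ
  N : ℕ
  N_pos : 0 < N
  f : Cv → J → ℤ
  deg : ∀ (c : ℝ) (w : J → ℝ), B.Nef (c • B.pb L - ∑ j, w j • phi j) →
    ∀ C, 0 ≤ c * l C - ∑ j, w j * (f C j / N)
  /-- `(Y', Δ)`, `Δ = ∑ d_j F_j`, is klt if the numbers `d_j` are near the numbers `lam x_j - a_j`, which lie
  between zero and one -/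
  eps : ℝ
  eps_pos : 0 < eps
  /-- Cone theorem (Kawamata 1984, Kollár 1984): if `M = c L - ∑ w_j F_j` is nef and `K + Δ + M` is not nef then
  there is an extremal ray on which it is negative, generated by a rational curve. -/
  cone : ∀ d : J → ℝ, (∀ j, |d j - (lam * x (F j) - a (F j))| < eps) → ∀ (c : ℝ) (w : J → ℝ),
    B.Nef (c • B.pb L - ∑ j, w j • phi j) →
    ¬ B.Nef (c • B.pb L - ∑ j, (w j - a (F j) - d j) • phi j) →
    ∃ C, c * l C - ∑ j, (w j - a (F j) - d j) * (f C j / N) < 0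
  /-- Length of extremal rays (Kawamata 1991): if `(K + Δ).C < 0` then there is a curve `C'` on the ray of `C`
  with `-(K + Δ).C' ≤ 8`. -/
  len : ∀ d : J → ℝ, (∀ j, |d j - (lam * x (F j) - a (F j))| < eps) → ∀ C,
    ∑ j, (a (F j) + d j) * (f C j / N) < 0 → ∃ (C' : Cv) (p : ℝ), 0 < p ∧ (l C' : ℝ) = p * l C ∧
      (∀ j, (f C' j : ℝ) = p * f C j) ∧ -8 ≤ ∑ j, (a (F j) + d j) * (f C' j / N)

attribute [instance] Last.fin

/-- The last model `Y'` of the program, and a log resolution `X'` of `Y'`. `Frm m` says that for some `p` there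
is a nonzero differential form of degree `p` on `X` with values in `m L`, `chiO` is `χ(O_X)`. -/
structure Res {B : BCl r} {L : Fin r → ℝ} (C : Cur B L) (a : B.D → ℕ) (chiO : ℤ) (Frm : ℕ → Prop)
    (T : C.C) (lam : ℝ) extends Last B L a (C.nu T) lam where
  /-- the divisors `F_j` and the exceptional divisors of `X' → X`, and their classes -/
  n : ℕ
  E : Fin n → B.D
  e : Fin n → B.V
  phi_e : ∀ j, phi j = ∑ i, (-B.o (phi j) (E i)) • e i
  /-- the product with the second Chern class of `X'`; the Euler characteristic of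
  `K + m L - ∑ k_i E_i`, `K` the canonical divisor of `X'` -/
  c2 : B.V → B.V → ℝ
  c2_lin : ∀ b, IsLinearMap ℝ fun a => c2 a b
  c2_symm : ∀ a b, c2 a b = c2 b a
  chi : ℕ → (Fin n → ℤ) → ℤ
  /-- Riemann-Roch theorem; `K = ∑ a_i E_i`, since `K_X ~ 0` -/
  rr : ∀ (m : ℕ) (k : Fin n → ℤ) (M K : B.V), M = (m : ℝ) • B.pb L - ∑ i, (k i : ℝ) • e i →
    K = ∑ i, (a (E i) : ℝ) • e i → (24 * chi m k : ℝ) =
      B.I M M M M + 2 * B.I M M M K + B.I M M K K + c2 M M + c2 M K + 24 * chiO
  /-- If the Lelong numbers of `T` are the multiplicities of the divisor `∑ x_j F_j` of `Y'` then the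
  multiplier ideal sheaf of `m T` on `X'` is `O(-∑ ⌊m x_i⌋ E_i)` (Skoda, Hölder). Demailly, Peternell and
  Schneider 2001: a nonzero cohomology class of `K + m L - ∑ ⌊m x_i⌋ E_i` gives a differential form on
  `X'` with values in `m L`. -/
  dps : (∀ E, C.nu T E = -∑ j, C.nu T (F j) * B.o (phi j) E) → ∀ m : ℕ, 0 < m →
    chi m (fun i => ⌊m * C.nu T (E i)⌋) ≠ 0 → Frm m

variable {B : BCl r} {L : Fin r → ℝ}

section

variable {a : B.D → ℕ} {x : B.D → ℝ} {lam : ℝ} {J : Finset B.D} (M : LastM B L a x lam J)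

open Classical in
/-- extension by zero -/
noncomputable def exz (J : Finset B.D) (w : J → ℝ) (E : B.D) : ℝ := if h : E ∈ J then w ⟨E, h⟩ else 0

theorem exz_coe (w : J → ℝ) (j : J) : exz J w j = w j := by
  rw [exz, dif_pos j.2]

theorem sum_coe (g : B.D → ℝ) : ∑ j ∈ J, g j = ∑ j : J, g j := (Finset.sum_coe_sort J g).symm

theorem LastM.mb_coe (c : ℝ) (w : B.D → ℝ) :
    B.mb L J M.phi c w = c • B.pb L - ∑ j : J, w j • M.phi j := by
  rw [BCl.mb, mlc, lc, ← Finset.sum_coe_sort J fun j => w j • M.phi j]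

/-- the data of `Last` -/
def LastM.last (h : ∀ E, 0 < x E → a E < lam * x E → E ∈ J) (h' : ∀ E ∈ J, 0 < x E) :
    Last B L a x lam where
  J := J
  F j := j
  inj := Subtype.val_injective
  mem E h1 h2 := ⟨⟨E, h E h1 h2⟩, rfl⟩
  pos j := h' j j.2
  phi j := M.phi j
  tr_phi j := M.tr_phi j j.2
  o_phi j := M.o_phi j j.2
  o_phi' i j hij := M.o_phi' j j.2 i (Or.inl i.2) fun h => hij (Subtype.ext h)
  o_X j G hG h := M.o_phi' j j.2 G (Or.inr hG) fun hj => h j hj.symm
  rat j := M.rat j j.2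
  ratI i j := M.ratI i i.2 j j.2
  nef := by
    obtain ⟨t, ht, h⟩ := M.nef
    refine ⟨t, ht, ?_⟩
    rw [M.mb_coe, one_smul] at h
    rw [Finset.smul_sum]
    simpa only [smul_smul] using h
  le E := by
    have := M.le E
    rwa [sum_coe] at this
  Cv := M.Cv
  l := M.l
  N := M.N
  N_pos := M.N_pos
  f C j := M.f C j
  deg c w hw C := by
    have h1 := M.deg c (exz J w) (by rw [M.mb_coe]; simpa only [exz_coe] using hw) C
    rw [sum_coe] at h1
    simpa only [exz_coe] using h1
  eps := M.eps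
  eps_pos := M.eps_pos
  cone d hd c w hM hn := by
    obtain ⟨C, hC⟩ := M.cone (exz J d) (fun j hj => by
        have := hd ⟨j, hj⟩
        rwa [exz_coe d ⟨j, hj⟩]) c (exz J w) (by rw [M.mb_coe]; simpa only [exz_coe] using hM) (by
        rw [M.mb_coe]; simpa only [exz_coe] using hn)
    refine ⟨C, ?_⟩
    rw [sum_coe] at hC
    simpa only [exz_coe] using hC
  len d hd C hC := by
    obtain ⟨C', p, hp, h1, h2, h3⟩ := M.len (exz J d) (fun j hj => by
        have := hd ⟨j, hj⟩
        rwa [exz_coe d ⟨j, hj⟩]) C (by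
        rw [sum_coe]
        simpa only [exz_coe] using hC)
    refine ⟨C', p, hp, h1, fun j => h2 j j.2, ?_⟩
    rw [sum_coe] at h3
    simpa only [exz_coe] using h3

end

/-- the data of `Res` -/
def LastRes.res {C : Cur B L} {a : B.D → ℕ} {chiO : ℤ} {Frm : ℕ → Prop} {T : C.C} {lam : ℝ}
    {J : Finset B.D} (M : LastRes C a chiO Frm T lam J)
    (h : ∀ E, 0 < C.nu T E → a E < lam * C.nu T E → E ∈ J) (h' : ∀ E ∈ J, 0 < C.nu T E) :
    Res C a chiO Frm T lam where
  toLast := M.toLastM.last h h'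
  n := M.n
  E := M.E
  e := M.e
  phi_e j := M.phi_e j.1 j.2
  c2 := M.c2
  c2_lin := M.c2_lin
  c2_symm := M.c2_symm
  chi := M.chi
  rr := M.rr
  dps hx := M.dps fun E => by
    rw [hx E, sum_coe]
    rfl

end Pool.Agent.H15.XF
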