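import Pool.Agent.H15.XF.Old

/-! Statements of the modules EXT and LOCAL (to be proved in files of their owners). -/

namespace Pool.Agent.H15.XF

variable {r : ℕ}

/-- EXT 1 (helper88, helper38): Lemma M (3796, section 3). -/
def LemmaM (B : BCl r) (L : Fin r → ℝ) : Prop :=
  Two B L → ∀ v (u : ℝ), Good B L v → 0 < u →
    2 * u * B.I (B.pb L) v (B.pb B.A) (B.pb B.A) < (1 + u) * B.I v v (B.pb B.A) (B.pb B.A) →
    ∃ w, Good B L w ∧ ∀ E, (1 + u) * B.o v E ≤ B.o w E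

/-- EXT 2 (helper88, helper38): 3796, sections 1, 4, 5. `th` is the functional, `S` the set of the
coefficients of `g`. -/
def ExtCore (B : BCl r) (L : Fin r → ℝ) : Prop :=
  Two B L → ∀ (P : B.V) (S : Finset B.D) (th : B.V → ℝ), Good B L P → 0 < th P →
  (∀ w, Good B L w → th w ≤ th P) →
  (∀ v w (c : ℝ), Good B L v → Good B L w → 0 ≤ c → (∀ E, c * B.o v E ≤ B.o w E) → c * th v ≤ th w) →
  (∀ v (t : ℝ), Good B L v → 0 ≤ t → t ≤ 1 → (∀ E, B.o v E ≤ t * B.o P E) →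
    (∀ E ∈ S, B.o v E = t * B.o P E) → th v = t * th P ∧
      B.I (B.pb L) v (B.pb B.A) (B.pb B.A) = (1 - t) * B.I (B.pb L) (B.pb L) (B.pb B.A) (B.pb B.A) +
        t * B.I (B.pb L) P (B.pb B.A) (B.pb B.A)) →
  (∀ w, Good B L w → (∀ E, B.o P E ≤ B.o w E) →
    B.I (B.pb L) w (B.pb B.A) (B.pb B.A) = B.I (B.pb L) P (B.pb B.A) (B.pb B.A)) →
  (∀ a b, B.I P P a b = 0) ∧
  (∀ w, Good B L w → ∀ t : ℝ, 0 ≤ t → t ≤ 1 → (∀ E ∈ S, t * B.o P E ≤ B.o w E) →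
    ∀ E, t * B.o P E ≤ B.o w E) ∧
  ∀ w, Good B L w → (∀ E, B.o P E ≤ B.o w E) → ∀ E, B.o w E = B.o P E

/-- LOCAL (helper33): 3743.10. `x` is the b-divisor of `Last`. -/
def LocalStatement {B : BCl r} {L : Fin r → ℝ} {a : B.D → ℕ} {x : B.D → ℝ} {lam : ℝ}
    (Y : Last B L a x lam) : Prop :=
  B.Nef (B.pb L) →
  ∃ (V : Set (Y.J → ℤ)) (e t : ℝ), V.Finite ∧ 0 < e ∧ 0 < t ∧
    (∀ v ∈ V, ∑ j, x (Y.F j) * v j ≤ 0) ∧
    ∀ y : Y.J → ℝ, (∀ j, |y j - x (Y.F j)| < e) → (∀ v ∈ V, ∑ j, y j * v j ≤ 0) →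
      B.Nef (B.pb L - t • ∑ j, y j • Y.phi j)

/-- the direction of `x` is rational -/
def RatOut {B : BCl r} {L : Fin r → ℝ} {a : B.D → ℕ} {x : B.D → ℝ} {lam : ℝ}
    (Y : Last B L a x lam) : Prop :=
  ∃ (c : ℝ) (q : Y.J → ℚ), 0 < c ∧ ∀ j, x (Y.F j) = c * q j

/-- RAT E (helper87): one coefficient. -/
def RatE {B : BCl r} {L : Fin r → ℝ} {a : B.D → ℕ} {x : B.D → ℝ} {lam : ℝ}
    (Y : Last B L a x lam) : Prop :=
  Two B L → LocalStatement Y → ∀ P, Good B L P → B.o P = x →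
  (∀ E, x E = -∑ j, x (Y.F j) * B.o (Y.phi j) E) →
  ∀ j0, (∀ w, Good B L w → ∀ t : ℝ, 0 ≤ t → t ≤ 1 → t * x (Y.F j0) ≤ B.o w (Y.F j0) →
    ∀ E, t * x E ≤ B.o w E) → RatOut Y

/-- RAT D (helper87): `P` is a minimum of `L.P.A.A`. -/
def RatD {B : BCl r} {L : Fin r → ℝ} {a : B.D → ℕ} {x : B.D → ℝ} {lam : ℝ}
    (Y : Last B L a x lam) : Prop :=
  Two B L → LemmaM B L → LocalStatement Y → ∀ P, Good B L P → B.o P = x →
  (∀ a b, B.I P P a b = 0) →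
  (∀ E, x E = -∑ j, x (Y.F j) * B.o (Y.phi j) E) →
  (∀ w, Good B L w → B.I (B.pb L) P (B.pb B.A) (B.pb B.A) ≤ B.I (B.pb L) w (B.pb B.A) (B.pb B.A)) →
  B.I (B.pb L) P (B.pb B.A) (B.pb B.A) < B.I (B.pb L) (B.pb L) (B.pb B.A) (B.pb B.A) →
  (∃ q : ℚ, B.I (B.pb L) (B.pb L) (B.pb B.A) (B.pb B.A) = q) →
  (∀ G, B.X G → ∃ q : ℚ, B.I (B.pb L) (B.pb (B.cl G)) (B.pb B.A) (B.pb B.A) = q) →
  (∀ h : Y.J → ℝ, (∀ j, ¬ B.X (Y.F j) → h j = 0) → ∑ j, h j • B.cl (Y.F j) = 0 → ∀ j, h j = 0) →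
  RatOut Y

/-- F-START, case D (helper60), for `kappa(L) = -∞` -/
def StartD (B : BCl r) (L : Fin r → ℝ) : Prop :=
  Two B L → (∃ v, Good B L v ∧ B.I (B.pb L) v (B.pb B.A) (B.pb B.A) <
    B.I (B.pb L) (B.pb L) (B.pb B.A) (B.pb B.A)) →
  ∃ P, Good B L P ∧
    (∀ w, Good B L w → B.I (B.pb L) P (B.pb B.A) (B.pb B.A) ≤ B.I (B.pb L) w (B.pb B.A) (B.pb B.A)) ∧
    {G | B.X G ∧ B.o P G ≠ 0}.Finite ∧
    ∀ n : B.D →₀ ℝ, (∀ G, n G ≠ 0 → B.X G ∧ B.o P G ≠ 0) →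
      (n.sum fun G t => t • B.cl G) = 0 → n = 0

/-- F3, case E (helper72): the components on `X` are independent. -/
def StartE (B : BCl r) (L : Fin r → ℝ) : Prop :=
  Two B L → (∀ v, Good B L v → B.I (B.pb L) v (B.pb B.A) (B.pb B.A) =
    B.I (B.pb L) (B.pb L) (B.pb B.A) (B.pb B.A)) →
  {G | B.X G ∧ ∃ w, Good B L w ∧ 0 < B.o w G}.Finite

end Pool.Agent.H15.XF
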